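import Mathlib
import Pool.Agent.Q171.KS.Final

/-!
# A lower bound of `k` for the delayed `k`-server problem

The delayed `k`-server problem is formalised in `Pool/Agent/Q171/KS/Model.lean`:
`Q171KS.competitiveness s₀` is the infimum of all real numbers `C` such that some deterministic
online algorithm started in the state `s₀` (positions of the `k` servers and the frozen server)
is `C`-competitive.

The question asks whether for every `k ≥ 4` there is a metric space with competitiveness at
least `k`.  The answer is positive: the real line is such a space for every `k ≥ 3`, and so is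
the path with `k + 1` points `0, 1, …, k` and every space which contains an isometric copy of it,
whatever the initial state.

The adversary plays on the path only, and the online algorithm is simulated by a lazy one that
leaves exactly one point, the hole, uncovered.  For each point `y` different from the last
request `r` let `w y` be the optimal offline cost of serving the requests and leaving the
hole `y`.  When the hole of the online algorithm is at `x`, the adversary requests `x`, possibly
after one other point, in such a way that the sum of all `w y` increases by at most `|r - x|`,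
which is what the online algorithm has paid for moving its hole from `r` to `x`.
-/

set_option autoImplicit false

namespace Pool.Agent.Results.MP_f4335c_lc.LineLowerBound

open Q171KS

/-- For every `k ≥ 4` there is a metric space with competitiveness at least `k`; the real line
is one, for every `k ≥ 3`, and so is every space containing a path with `k + 1` points. -/
theorem result :
    (∀ k : ℕ, 4 ≤ k → ∃ (M : Type) (_ : MetricSpace M), Nonempty (State M k) ∧
      ∀ s₀ : State M k, (k : EReal) ≤ competitiveness s₀) ∧
    (∀ k : ℕ, 3 ≤ k → ∀ s₀ : State ℝ k, (k : EReal) ≤ competitiveness s₀) ∧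
    (∀ k : ℕ, 3 ≤ k → ∀ (M : Type) [MetricSpace M] (p : ℕ → M),
      (∀ a b : ℕ, a ≤ k → b ≤ k → dist (p a) (p b) = |(a : ℝ) - (b : ℝ)|) →
      ∀ s₀ : State M k, (k : EReal) ≤ competitiveness s₀) := by
  have h3 : ∀ k : ℕ, 3 ≤ k → ∀ (M : Type) [MetricSpace M] (p : ℕ → M),
      (∀ a b : ℕ, a ≤ k → b ≤ k → dist (p a) (p b) = |(a : ℝ) - (b : ℝ)|) →
      ∀ s₀ : State M k, (k : EReal) ≤ competitiveness s₀ := by
    intro k hk M _ p hp s₀
    apply lower_bound hk (p := p)
    intro a b ha hb
    rw [hp a b ha hb]
    unfold dz
    push_cast
    rw [abs_eq_max_neg, neg_sub]
  have h2 : ∀ k : ℕ, 3 ≤ k → ∀ s₀ : State ℝ k, (k : EReal) ≤ competitiveness s₀ := by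
    intro k hk s₀
    exact h3 k hk ℝ (fun a => (a : ℝ)) (fun a b _ _ => Real.dist_eq _ _) s₀
  refine ⟨?_, h2, h3⟩
  intro k hk
  exact ⟨ℝ, inferInstance, ⟨⟨fun _ => 0, ⟨0, by omega⟩⟩⟩, h2 k (by omega)⟩

end Pool.Agent.Results.MP_f4335c_lc.LineLowerBound
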